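import Pool.Agent.U29.CY.Stm

/-! Project CY, package FPP. -/

set_option autoImplicit false

namespace Pool.Agent.U461.CY

open Finset MeasureTheory Filter Pool.Agent.U762.RP Pool.Agent.U29.CY

theorem t_FPP : S_FPP := by
  intro f N hfin hper
  constructor
  · have hY : {y : ℤ | |(y : ℝ)| < N}.Finite := by
      apply (Set.finite_Icc (-⌈|N|⌉) ⌈|N|⌉).subset
      intro y hy
      have h1 : |(y : ℝ)| < N := hy
      have h2 : N ≤ (⌈|N|⌉ : ℝ) := (le_abs_self N).trans (Int.le_ceil _)
      have h3 := abs_lt.1 (h1.trans_le h2)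
      constructor
      · have : ((-⌈|N|⌉ : ℤ) : ℝ) ≤ (y : ℝ) := by push_cast; exact h3.1.le
        exact_mod_cast this
      · exact_mod_cast h3.2.le
    apply (hY.biUnion (fun y _ => hfin y)).subset
    intro x hx
    obtain ⟨i, hi⟩ := hper x hx
    obtain ⟨n, hn, hxn⟩ := hx
    refine Set.mem_biUnion (x := f^[i] x) hi ⟨n * i - i, ?_⟩
    have h1 : i ≤ n * i := Nat.le_mul_of_pos_left i hn
    have h2 : f^[n * i] x = x := (hxn.mul_const i)
    change f^[n * i - i] (f^[i] x) = x
    rw [← Function.iterate_add_apply, Nat.sub_add_cancel h1, h2]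
  · intro x
    obtain ⟨a, b, hab, h⟩ := Set.Finite.exists_lt_map_eq_of_forall_mem
      (f := fun i : ℕ => f^[i] x) (fun i => Set.mem_range_self i) (hfin x)
    refine ⟨a, b - a, by omega, ?_⟩
    change f^[b - a] (f^[a] x) = f^[a] x
    rw [← Function.iterate_add_apply, Nat.sub_add_cancel hab.le]
    exact h.symm

end Pool.Agent.U461.CY
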